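import Pool.Agent.Helper67.BT.Stmts

/-!
DID: the exact identity for the Hessian in the diagonal case.
-/

open Finset MeasureTheory

namespace Pool.Agent.Helper67.BT

theorem did_inner {k : ℕ} (a x : E k) : inner ℝ a x = ∑ l, a l * x l := by
  rw [PiLp.inner_apply]
  refine Finset.sum_congr rfl fun l _ => ?_
  simp [mul_comm]

theorem did_dg {k : ℕ} (m : Fin k → ℝ) (a x : E k) :
    inner ℝ (dg m a) x = ∑ l, m l * x l * a l := by
  rw [did_inner]
  refine Finset.sum_congr rfl fun l _ => ?_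
  show m l * a l * x l = _
  ring

theorem did_single {k : ℕ} (a : E k) (l : Fin k) :
    inner ℝ a (EuclideanSpace.single l (1 : ℝ)) = a l := by
  simp only [EuclideanSpace.inner_single_right, one_mul, conj_trivial]

theorem did_rpow {p : ℝ} (hp : 2 < p) (z : ℝ) : |z| ^ p = |z| ^ (p - 2) * z * z := by
  rcases eq_or_lt_of_le (abs_nonneg z) with h0 | h0
  · rw [← h0, Real.zero_rpow (by linarith), Real.zero_rpow (by linarith)]
    ring
  · have h2 : |z| ^ p = |z| ^ (p - 2) * z ^ 2 := by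
      rw [← sq_abs, ← Real.rpow_natCast, ← Real.rpow_add h0]
      norm_num
    rw [h2]
    ring

variable {n k : ℕ} (c : Cfg n k)

/-- the derivative of the potential in the direction of the linear vector field -/
noncomputable def did_N (p : ℝ) (m : Fin k → ℝ) (x : E k) : ℝ :=
  p * ∑ i, c.s i * ps p (c.z i x) * inner ℝ (dg m (c.e i)) x

/-- the error term -/
noncomputable def did_g (p : ℝ) (v : Fin n → ℝ) (m : Fin k → ℝ) (x : E k) : ℝ :=
  ∑ i, c.s i * (om p (c.z i x) * c.z i x) * inner ℝ (ff c v m i) x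

theorem did_ff (v : Fin n → ℝ) (m : Fin k → ℝ) (i : Fin n) (x : E k) :
    inner ℝ (ff c v m i) x = inner ℝ (dg m (c.e i)) x - v i * c.z i x := by
  unfold ff Cfg.z
  rw [inner_sub_left, real_inner_smul_left]

theorem did_zero (v : Fin n → ℝ) (m : Fin k → ℝ) (hD : Dg c v m) (x : E k) :
    ∑ i, c.s i * c.z i x * inner ℝ (ff c v m i) x = 0 := by
  have h1 : ∑ i, c.s i * c.z i x * inner ℝ (dg m (c.e i)) x = inner ℝ x (dg m x) := by
    rw [← c.iso x (dg m x)]
    refine Finset.sum_congr rfl fun i _ => ?_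
    have : inner ℝ (dg m (c.e i)) x = inner ℝ (c.e i) (dg m x) := by
      rw [did_dg, did_inner]
      refine Finset.sum_congr rfl fun l _ => ?_
      show _ = c.e i l * (m l * x l)
      ring
    rw [this]
    rfl
  have h2 : ∑ i, c.s i * c.z i x * (v i * c.z i x) = inner ℝ x (dg m x) := by
    have h3 : ∀ i, c.s i * c.z i x * (v i * c.z i x) =
        ∑ l, ∑ l', (x l * x l') * (c.s i * v i * c.e i l * c.e i l') := by
      intro i
      have h4 : c.z i x = ∑ l, c.e i l * x l := did_inner _ _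
      have h5 : c.s i * c.z i x * (v i * c.z i x) = (c.s i * v i) * (c.z i x * c.z i x) := by ring
      rw [h5, h4, Finset.sum_mul_sum, Finset.mul_sum]
      refine Finset.sum_congr rfl fun l _ => ?_
      rw [Finset.mul_sum]
      refine Finset.sum_congr rfl fun l' _ => ?_
      ring
    rw [Finset.sum_congr rfl fun i _ => h3 i, Finset.sum_comm, did_inner]
    refine Finset.sum_congr rfl fun l _ => ?_
    rw [Finset.sum_comm]
    have h6 : ∀ l', ∑ i, (x l * x l') * (c.s i * v i * c.e i l * c.e i l') =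
        if l = l' then x l * x l' * m l else 0 := by
      intro l'
      rw [← Finset.mul_sum, hD l l']
      split_ifs <;> simp
    rw [Finset.sum_congr rfl fun l' _ => h6 l', Finset.sum_ite_eq]
    rw [if_pos (Finset.mem_univ l)]
    show _ = x l * (m l * x l)
    ring
  have h3 : ∀ i, c.s i * c.z i x * inner ℝ (ff c v m i) x =
      c.s i * c.z i x * inner ℝ (dg m (c.e i)) x - c.s i * c.z i x * (v i * c.z i x) := by
    intro i
    rw [did_ff]
    ring
  rw [Finset.sum_congr rfl fun i _ => h3 i, Finset.sum_sub_distrib, h1, h2, sub_self]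

theorem did_X {p : ℝ} (hp : 2 < p) (v : Fin n → ℝ) (m : Fin k → ℝ) (hD : Dg c v m) (x : E k) :
    did_g c p v m x = did_N c p m x / p - XX c p v x := by
  have hp0 : p ≠ 0 := by linarith
  have h0 := did_zero c v m hD x
  have h1 : did_N c p m x / p = ∑ i, c.s i * ps p (c.z i x) * inner ℝ (dg m (c.e i)) x := by
    unfold did_N
    field_simp
  have h2 : did_g c p v m x = ∑ i, (c.s i * ps p (c.z i x) * inner ℝ (dg m (c.e i)) x -
      v i * (c.s i * |c.z i x| ^ p)) := by
    rw [← add_zero (did_g c p v m x), ← h0]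
    unfold did_g
    rw [← Finset.sum_add_distrib]
    refine Finset.sum_congr rfl fun i _ => ?_
    rw [did_ff, did_rpow hp]
    unfold om ps
    ring
  rw [h2, h1, Finset.sum_sub_distrib]
  rfl

/-! ### growth and derivatives -/

theorem did_PG_N {p : ℝ} (hp : 2 < p) (m : Fin k → ℝ) : PG (did_N c p m) :=
  PG_const_mul _ (PG_sum _ fun i _ => PG_mul (PG_const_mul _ (PG_ps (PG_z c i) hp.le)) (PG_inner _))

theorem did_PG_X {p : ℝ} (hp : 2 < p) (v : Fin n → ℝ) : PG (XX c p v) :=
  PG_sum _ fun i _ => PG_const_mul _ (PG_const_mul _ (PG_rpow (PG_z c i) (by linarith)))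

theorem did_Nline {p : ℝ} (hp : 2 < p) (m : Fin k → ℝ) (l : Fin k) (x : E k) :
    HasLineDerivAt ℝ (did_N c p m)
      (p * ∑ i, (c.s i * ((p - 1) * |c.z i x| ^ (p - 2) * c.e i l) * inner ℝ (dg m (c.e i)) x +
        c.s i * ps p (c.z i x) * (m l * c.e i l))) x (EuclideanSpace.single l 1) := by
  have h1 : ∀ i, HasDerivAt (fun t : ℝ => c.s i * ps p (c.z i (x + t • EuclideanSpace.single l 1)) *
      inner ℝ (dg m (c.e i)) (x + t • EuclideanSpace.single l 1))
      (c.s i * ((p - 1) * |c.z i x| ^ (p - 2) * c.e i l) * inner ℝ (dg m (c.e i)) x +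
        c.s i * ps p (c.z i x) * (m l * c.e i l)) 0 := by
    intro i
    have a1 : HasDerivAt (fun t : ℝ => ps p (c.z i (x + t • EuclideanSpace.single l 1)))
        ((p - 1) * |c.z i x| ^ (p - 2) * inner ℝ (c.e i) (EuclideanSpace.single l (1 : ℝ))) 0 :=
      comp_line (c.e i) x (EuclideanSpace.single l 1) (ps_der hp (c.z i x))
    have a2 := inner_line (dg m (c.e i)) x (EuclideanSpace.single l 1)
    have a3 := (a1.const_mul (c.s i)).mul a2
    refine HasDerivAt.congr_deriv a3 ?_
    rw [zero_smul, add_zero, did_single, did_single]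
    rfl
  have h2 := (HasDerivAt.fun_sum (u := Finset.univ) fun i _ => h1 i).const_mul p
  exact h2

theorem did_Xline {p : ℝ} (hp : 2 < p) (v : Fin n → ℝ) (l : Fin k) (x : E k) :
    HasLineDerivAt ℝ (XX c p v) (∑ i, v i * (c.s i * (p * ps p (c.z i x) * c.e i l))) x
      (EuclideanSpace.single l 1) := by
  have h1 : ∀ i, HasDerivAt (fun t : ℝ =>
      v i * (c.s i * |c.z i (x + t • EuclideanSpace.single l 1)| ^ p))
      (v i * (c.s i * (p * ps p (c.z i x) * c.e i l))) 0 := by
    intro i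
    have a1 : HasDerivAt (fun t : ℝ => |c.z i (x + t • EuclideanSpace.single l 1)| ^ p)
        (p * ps p (c.z i x) * inner ℝ (c.e i) (EuclideanSpace.single l (1 : ℝ))) 0 :=
      comp_line (c.e i) x (EuclideanSpace.single l 1) (abs_der (by linarith) (c.z i x))
    rw [did_single] at a1
    exact (a1.const_mul (c.s i)).const_mul (v i)
  exact HasDerivAt.fun_sum (u := Finset.univ) fun i _ => h1 i

/-! ### the three integrations by parts -/

theorem did_avN (hI : ST_IBD) {p : ℝ} (hp : 2 < p) (hp3 : p ≤ 3) (m : Fin k → ℝ) :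
    av c p (did_N c p m) = ∑ l, m l := by
  have h := hI n k c p m (fun _ => 1) (fun _ _ => 0) hp hp3 (PG_const 1) (fun _ => PG_const 0)
    (fun l x => hasDerivAt_const 0 1)
  simp only [one_mul, mul_zero, Finset.sum_const_zero, av_one c hp.le hp3,
    av_const c hp.le hp3, mul_one, add_zero] at h
  exact h

/-- the mixed moments -/
noncomputable def did_P (p : ℝ) (m : Fin k → ℝ) (i : Fin n) : ℝ :=
  av c p fun x => ps p (c.z i x) * inner ℝ (dg m (c.e i)) x

theorem did_PG_P {p : ℝ} (hp : 2 < p) (m : Fin k → ℝ) (i : Fin n) :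
    PG fun x => ps p (c.z i x) * inner ℝ (dg m (c.e i)) x :=
  PG_mul (PG_ps (PG_z c i) hp.le) (PG_inner _)

theorem did_avXN (hI : ST_IBD) {p : ℝ} (hp : 2 < p) (hp3 : p ≤ 3) (v : Fin n → ℝ)
    (m : Fin k → ℝ) :
    av c p (fun x => XX c p v x * did_N c p m x) =
      (∑ l, m l) * av c p (XX c p v) + p * ∑ i, c.s i * v i * did_P c p m i := by
  have h := hI n k c p m (XX c p v) (fun l x => ∑ i, v i * (c.s i * (p * ps p (c.z i x) * c.e i l)))
    hp hp3 (did_PG_X c hp v) (fun l => PG_sum _ fun i _ => PG_const_mul _ (PG_const_mul _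
      (PG_mul (PG_const_mul _ (PG_ps (PG_z c i) hp.le)) (PG_const _)))) (did_Xline c hp v)
  have e : (fun x : E k => ∑ l, m l * x l * ∑ i, v i * (c.s i * (p * ps p (c.z i x) * c.e i l))) =
      fun x => ∑ i, p * (c.s i * v i) * (ps p (c.z i x) * inner ℝ (dg m (c.e i)) x) := by
    ext x
    simp only [Finset.mul_sum]
    rw [Finset.sum_comm]
    refine Finset.sum_congr rfl fun i _ => ?_
    rw [did_dg, Finset.mul_sum, Finset.mul_sum]
    refine Finset.sum_congr rfl fun l _ => ?_
    ring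
  rw [e, av_sum c hp.le hp3 _ (fun i _ => PG_const_mul _ (did_PG_P c hp m i))] at h
  have e2 : ∀ i, (av c p fun x => p * (c.s i * v i) * (ps p (c.z i x) *
      inner ℝ (dg m (c.e i)) x)) = p * (c.s i * v i * did_P c p m i) := by
    intro i
    rw [av_const_mul]
    unfold did_P
    ring
  rw [Finset.sum_congr rfl fun i _ => e2 i, ← Finset.mul_sum] at h
  exact h

/-- the second moments -/
noncomputable def did_R (p : ℝ) (m : Fin k → ℝ) (i : Fin n) : ℝ :=
  av c p fun x => |c.z i x| ^ (p - 2) * (inner ℝ (dg m (c.e i)) x) ^ 2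

theorem did_PG_R {p : ℝ} (hp : 2 < p) (m : Fin k → ℝ) (i : Fin n) :
    PG fun x => |c.z i x| ^ (p - 2) * (inner ℝ (dg m (c.e i)) x) ^ 2 :=
  PG_mul (PG_rpow (PG_z c i) (by linarith)) (PG_pow (PG_inner _) 2)

theorem did_avNN (hI : ST_IBD) {p : ℝ} (hp : 2 < p) (hp3 : p ≤ 3) (m : Fin k → ℝ) :
    av c p (fun x => did_N c p m x * did_N c p m x) =
      (∑ l, m l) ^ 2 + p * (p - 1) * (∑ i, c.s i * did_R c p m i) + ∑ l, m l ^ 2 := by
  have h := hI n k c p m (did_N c p m) (fun l x => p * ∑ i, (c.s i * ((p - 1) *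
      |c.z i x| ^ (p - 2) * c.e i l) * inner ℝ (dg m (c.e i)) x +
        c.s i * ps p (c.z i x) * (m l * c.e i l)))
    hp hp3 (did_PG_N c hp m) (fun l => PG_const_mul _ (PG_sum _ fun i _ => PG_add
      (PG_mul (PG_const_mul _ (PG_mul (PG_const_mul _ (PG_rpow (PG_z c i) (by linarith)))
        (PG_const _))) (PG_inner _))
      (PG_mul (PG_const_mul _ (PG_ps (PG_z c i) hp.le)) (PG_const _)))) (did_Nline c hp m)
  have e : (fun x : E k => ∑ l, m l * x l * (p * ∑ i, (c.s i * ((p - 1) *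
      |c.z i x| ^ (p - 2) * c.e i l) * inner ℝ (dg m (c.e i)) x +
        c.s i * ps p (c.z i x) * (m l * c.e i l)))) =
      fun x => (∑ i, p * (p - 1) * c.s i * (|c.z i x| ^ (p - 2) *
        (inner ℝ (dg m (c.e i)) x) ^ 2)) + did_N c p (fun l => m l ^ 2) x := by
    ext x
    unfold did_N
    rw [Finset.mul_sum, ← Finset.sum_add_distrib]
    simp only [Finset.mul_sum]
    rw [Finset.sum_comm]
    refine Finset.sum_congr rfl fun i _ => ?_
    have a1 : (inner ℝ (dg m (c.e i)) x) ^ 2 = (∑ l, m l * x l * c.e i l) *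
        inner ℝ (dg m (c.e i)) x := by
      rw [← did_dg]
      ring
    rw [a1, did_dg (fun l => m l ^ 2), Finset.sum_mul, Finset.mul_sum, Finset.mul_sum,
      Finset.mul_sum, Finset.mul_sum, ← Finset.sum_add_distrib]
    refine Finset.sum_congr rfl fun l _ => ?_
    ring
  rw [e, av_add c hp.le hp3 (PG_sum _ fun i _ => PG_const_mul _ (did_PG_R c hp m i))
    (did_PG_N c hp _), av_sum c hp.le hp3 _ (fun i _ => PG_const_mul _ (did_PG_R c hp m i)),
    did_avN c hI hp hp3, did_avN c hI hp hp3] at h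
  have e2 : ∀ i, (av c p fun x => p * (p - 1) * c.s i * (|c.z i x| ^ (p - 2) *
        (inner ℝ (dg m (c.e i)) x) ^ 2)) = p * (p - 1) * (c.s i * did_R c p m i) := by
    intro i
    rw [av_const_mul]
    unfold did_R
    ring
  rw [Finset.sum_congr rfl fun i _ => e2 i, ← Finset.mul_sum] at h
  have h3 : (av c p fun x => did_N c p m x * did_N c p m x) = _ := h
  rw [h3]
  ring

theorem did_sq {p : ℝ} (hp : 2 < p) (hp3 : p ≤ 3) (v : Fin n → ℝ) (m : Fin k → ℝ) (i : Fin n) :
    (av c p fun x => |c.z i x| ^ (p - 2) * (inner ℝ (ff c v m i) x) ^ 2) =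
      did_R c p m i - 2 * v i * did_P c p m i + v i ^ 2 * av c p fun x => |c.z i x| ^ p := by
  have e : (fun x => |c.z i x| ^ (p - 2) * (inner ℝ (ff c v m i) x) ^ 2) =
      fun x => |c.z i x| ^ (p - 2) * (inner ℝ (dg m (c.e i)) x) ^ 2 +
        ((-2 * v i) * (ps p (c.z i x) * inner ℝ (dg m (c.e i)) x) + v i ^ 2 * |c.z i x| ^ p) := by
    ext x
    rw [did_ff, did_rpow hp]
    unfold ps
    ring
  have h1 : PG fun x => |c.z i x| ^ p := PG_rpow (PG_z c i) (by linarith)
  rw [e, av_add c hp.le hp3 (did_PG_R c hp m i) (PG_add (PG_const_mul _ (did_PG_P c hp m i))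
    (PG_const_mul _ h1)), av_add c hp.le hp3 (PG_const_mul _ (did_PG_P c hp m i))
    (PG_const_mul _ h1), av_const_mul, av_const_mul]
  unfold did_R did_P
  ring

theorem st_DID (hI : ST_IBD) : ST_DID := by
  intro n k c p v m hp hp3 hD
  have hp0 : 0 < p := by linarith
  have hN := did_PG_N c hp m
  have hX := did_PG_X c hp v
  have eg : (fun x => (∑ i, c.s i * (om p (c.z i x) * c.z i x) * inner ℝ (ff c v m i) x) ^ 2) =
      fun x => XX c p v x ^ 2 + ((-2 / p) * (XX c p v x * did_N c p m x) +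
        (1 / p ^ 2) * (did_N c p m x * did_N c p m x)) := by
    ext x
    have h1 : (∑ i, c.s i * (om p (c.z i x) * c.z i x) * inner ℝ (ff c v m i) x) =
        did_N c p m x / p - XX c p v x := did_X c hp v m hD x
    rw [h1]
    field_simp
    ring
  rw [eg, av_add c hp.le hp3 (PG_pow hX 2) (PG_add (PG_const_mul _ (PG_mul hX hN))
    (PG_const_mul _ (PG_mul hN hN))), av_add c hp.le hp3 (PG_const_mul _ (PG_mul hX hN))
    (PG_const_mul _ (PG_mul hN hN)), av_const_mul, av_const_mul, did_avXN c hI hp hp3,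
    did_avNN c hI hp hp3]
  have e1 : (∑ i, c.s i * av c p fun x => |c.z i x| ^ (p - 2) * (inner ℝ (ff c v m i) x) ^ 2) =
      (∑ i, c.s i * did_R c p m i) - 2 * (∑ i, c.s i * v i * did_P c p m i) +
        ∑ i, c.s i * v i ^ 2 * av c p fun x => |c.z i x| ^ p := by
    rw [Finset.mul_sum, ← Finset.sum_sub_distrib, ← Finset.sum_add_distrib]
    refine Finset.sum_congr rfl fun i _ => ?_
    rw [did_sq c hp hp3]
    ring
  have e2 : qq c p m = (∑ l, m l ^ 2) - p * ∑ i, c.s i * did_R c p m i := rfl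
  rw [e1, e2]
  set A := ∑ i, c.s i * v i * did_P c p m i
  set R := ∑ i, c.s i * did_R c p m i
  set W := ∑ i, c.s i * v i ^ 2 * av c p fun x => |c.z i x| ^ p
  set M := ∑ l, m l
  set M2 := ∑ l, m l ^ 2
  set X2 := av c p fun x => XX c p v x ^ 2
  set X1 := av c p (XX c p v)
  have key : (W - (X2 - X1 ^ 2)) - (R - 2 * A + W + (M2 - p * R) / p ^ 2 -
      (X2 + (-2 / p * (M * X1 + p * A) + 1 / p ^ 2 * (M ^ 2 + p * (p - 1) * R + M2)))) =
      (X1 - M / p) ^ 2 := by
    field_simp
    ring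
  have := sq_nonneg (X1 - M / p)
  linarith

end Pool.Agent.Helper67.BT
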